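import Pool.Agent.P.MP_3c7b76_co.S.Seq

/-! The allowable sequence of a planar point set in general position. -/

namespace Pool.Agent.P.MP_3c7b76_co.S

open Real Filter

theorem conv_real {x y α β γ : ℝ} (h1 : α ≤ β) (h2 : β ≤ γ) (h3 : γ ≤ α + π)
    (ha : 0 < cos α * x + sin α * y) (hc : 0 < cos γ * x + sin γ * y) :
    0 < cos β * x + sin β * y := by
  rcases h3.eq_or_lt with e | e
  · rw [e, cos_add_pi, sin_add_pi] at hc
    linarith
  rcases (h1.trans h2).eq_or_lt with e' | e'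
  · rwa [le_antisymm (e' ▸ h2) h1]
  have s0 : 0 < sin (γ - α) := sin_pos_of_pos_of_lt_pi (by linarith) (by linarith)
  have s1 : 0 ≤ sin (γ - β) := sin_nonneg_of_nonneg_of_le_pi (by linarith) (by linarith)
  have s2 : 0 ≤ sin (β - α) := sin_nonneg_of_nonneg_of_le_pi (by linarith) (by linarith)
  have id : sin (γ - α) * (cos β * x + sin β * y) =
      sin (γ - β) * (cos α * x + sin α * y) + sin (β - α) * (cos γ * x + sin γ * y) := by
    simp only [sin_sub]
    ring
  by_contra h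
  have a1 := mul_nonneg s1 ha.le
  have a2 := mul_nonneg s2 hc.le
  have a3 := mul_nonneg s0.le (neg_nonneg.2 (not_lt.1 h))
  have b1 : sin (γ - β) = 0 := (mul_eq_zero.1 (by linarith)).resolve_right ha.ne'
  have b2 : sin (β - α) = 0 := (mul_eq_zero.1 (by linarith)).resolve_right hc.ne'
  have : γ - α = (γ - β) + (β - α) := by ring
  rw [this, sin_add, b1, b2] at s0
  simp at s0

theorem lip_real (x y α δ : ℝ) (hδ : 0 ≤ δ) :
    (cos α * x + sin α * y) - (cos (α + δ) * x + sin (α + δ) * y) ≤ δ * (|x| + |y|) := by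
  have h1 := abs_cos_sub_cos_le α (α + δ)
  have h2 := abs_sin_sub_sin_le α (α + δ)
  rw [sub_add_cancel_left, abs_neg, abs_of_nonneg hδ] at h1 h2
  have h3 := le_abs_self ((cos α - cos (α + δ)) * x)
  have h4 := le_abs_self ((sin α - sin (α + δ)) * y)
  rw [abs_mul] at h3 h4
  have h5 := mul_le_mul_of_nonneg_right h1 (abs_nonneg x)
  have h6 := mul_le_mul_of_nonneg_right h2 (abs_nonneg y)
  linarith

theorem one_real {x y x' y' α δ : ℝ} (hδ : 0 < δ) (hδ' : δ ≤ π / 2)
    (h1 : 0 < cos α * x + sin α * y) (h2 : cos (α + δ) * x + sin (α + δ) * y < 0)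
    (h3 : 0 < cos α * x' + sin α * y') (h4 : cos (α + δ) * x' + sin (α + δ) * y' < 0) :
    |x * y' - y * x'| ≤ 2 * δ * ((|x| + |y|) * (|x'| + |y'|)) := by
  have l1 := lip_real x y α δ hδ.le
  have l2 := lip_real x' y' α δ hδ.le
  have id : sin δ * (x * y' - y * x') =
      (cos α * x + sin α * y) * (cos (α + δ) * x' + sin (α + δ) * y') -
      (cos α * x' + sin α * y') * (cos (α + δ) * x + sin (α + δ) * y) := by
    rw [sin_add, cos_add]
    linear_combination (-(sin δ * (x * y' - y * x'))) * sin_sq_add_cos_sq α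
  have s1 : δ / 2 ≤ sin δ := by
    refine le_trans ?_ (mul_le_sin hδ.le hδ')
    have : 1 / 2 ≤ 2 / π := by
      rw [div_le_div_iff₀ two_pos pi_pos]
      linarith [pi_le_four]
    nlinarith
  generalize cos α * x + sin α * y = a at *
  generalize cos (α + δ) * x + sin (α + δ) * y = b at *
  generalize cos α * x' + sin α * y' = a' at *
  generalize cos (α + δ) * x' + sin (α + δ) * y' = b' at *
  generalize |x| + |y| = R at *
  generalize |x'| + |y'| = R' at *
  have m1 : a * -b' ≤ δ * R * (δ * R') :=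
    mul_le_mul (by linarith) (by linarith) (by linarith) (by linarith)
  have m2 : -b * a' ≤ δ * R * (δ * R') :=
    mul_le_mul (by linarith) (by linarith) (by linarith) (by linarith)
  have m3 : 0 ≤ a * -b' := mul_nonneg h1.le (by linarith)
  have m4 : 0 ≤ -b * a' := mul_nonneg (by linarith) h3.le
  have m5 : sin δ * |x * y' - y * x'| ≤ δ * R * (δ * R') := by
    rw [← abs_of_nonneg (show 0 ≤ sin δ by linarith), ← abs_mul, id, abs_le]
    constructor <;> linarith
  have m6 := mul_le_mul_of_nonneg_right s1 (abs_nonneg (x * y' - y * x'))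
  exact le_of_mul_le_mul_left (a := δ / 2) (by linarith) (by linarith)

theorem zeros_countable {x y : ℝ} (h : x ≠ 0 ∨ y ≠ 0) :
    {φ : ℝ | cos φ * x + sin φ * y = 0}.Countable := by
  rcases {φ : ℝ | cos φ * x + sin φ * y = 0}.eq_empty_or_nonempty with e | ⟨ψ, hψ⟩
  · rw [e]; exact Set.countable_empty
  refine (Set.countable_range fun n : ℤ => ψ + n * π).mono fun φ hφ => ?_
  rw [Set.mem_ofPred_eq] at hψ hφ
  have : sin (φ - ψ) = 0 := by
    rcases h with h | h
    · refine (mul_eq_zero.1 ?_).resolve_right h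
      rw [sin_sub]
      linear_combination sin φ * hψ - sin ψ * hφ
    · refine (mul_eq_zero.1 ?_).resolve_right h
      rw [sin_sub]
      linear_combination cos ψ * hφ - cos φ * hψ
  obtain ⟨n, hn⟩ := sin_eq_zero_iff.1 this
  exact ⟨n, by simp only; linarith⟩

theorem exists_allow {V : Type} [Fintype V] (X Y : V → ℝ)
    (h1 : ∀ a b, a ≠ b → X b - X a ≠ 0 ∨ Y b - Y a ≠ 0)
    (h2 : ∀ a b c, a ≠ b → b ≠ c → a ≠ c →
      (X b - X a) * (Y c - Y a) - (Y b - Y a) * (X c - X a) ≠ 0) :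
    ∃ (M : ℕ) (φ : ℤ → ℝ), 0 < M ∧ Allow M fun i a => cos (φ i) * X a + sin (φ i) * Y a := by
  obtain ⟨M, hM, hM'⟩ : ∃ M : ℕ, 2 ≤ M ∧ ∀ q : V × V × V, q.1 ≠ q.2.1 → q.2.1 ≠ q.2.2 →
      q.1 ≠ q.2.2 → 2 * π * ((|X q.2.1 - X q.1| + |Y q.2.1 - Y q.1|) *
        (|X q.2.2 - X q.1| + |Y q.2.2 - Y q.1|)) / M <
      |(X q.2.1 - X q.1) * (Y q.2.2 - Y q.1) - (Y q.2.1 - Y q.1) * (X q.2.2 - X q.1)| := by
    refine ((eventually_ge_atTop 2).and (eventually_all.2 fun q => ?_)).exists
    by_cases c : q.1 ≠ q.2.1 ∧ q.2.1 ≠ q.2.2 ∧ q.1 ≠ q.2.2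
    · filter_upwards [(tendsto_const_div_atTop_nhds_zero_nat _).eventually
        (gt_mem_nhds (abs_pos.2 (h2 _ _ _ c.1 c.2.1 c.2.2)))] with M hM _ _ _ using hM
    · exact Eventually.of_forall fun M a b d => absurd ⟨a, b, d⟩ c
  have hM0 : (2 : ℝ) ≤ M := by exact_mod_cast hM
  obtain ⟨δ, hδ⟩ : ∃ δ : ℝ, δ = π / M := ⟨_, rfl⟩
  have d0 : 0 < δ := by rw [hδ]; exact div_pos pi_pos (by linarith)
  have d1 : M * δ = π := by rw [hδ]; field_simp
  have d2 : δ ≤ π / 2 := by nlinarith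
  obtain ⟨φ, hφ⟩ : ∃ φ : ℝ, ∀ (i : ℤ) a b, a ≠ b →
      cos (φ + i * δ) * (X b - X a) + sin (φ + i * δ) * (Y b - Y a) ≠ 0 := by
    have hc : (⋃ q : ℤ × V × V, {φ : ℝ | q.2.1 ≠ q.2.2 ∧ cos (φ + q.1 * δ) * (X q.2.2 - X q.2.1) +
        sin (φ + q.1 * δ) * (Y q.2.2 - Y q.2.1) = 0}).Countable := by
      refine Set.countable_iUnion fun q => ?_
      by_cases c : q.2.1 = q.2.2
      · simp [c]
      · exact ((zeros_countable (h1 _ _ c)).preimage_of_injOn
          (f := fun φ => φ + q.1 * δ) fun a _ b _ e => by simpa using e).mono fun φ h => h.2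
    obtain ⟨φ, hφ⟩ := (hc.dense_compl ℝ).nonempty
    exact ⟨φ, fun i a b c e => hφ (Set.mem_iUnion.2 ⟨(i, a, b), c, e⟩)⟩
  refine ⟨M, fun i => φ + i * δ, by omega, fun i a b e => ?_, fun i a b => ?_,
    fun i j l a b c1 c2 c3 c4 c5 => ?_, fun i a b b' c1 c2 c3 c4 => ?_⟩
  · by_contra c
    exact hφ i a b c (by simp only at e; linarith)
  · have : φ + ((i + M : ℤ) : ℝ) * δ = φ + i * δ + π := by push_cast; linarith
    simp only [this, cos_add_pi, sin_add_pi]
    constructor <;> intro h <;> linarith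
  · have e1 : (i : ℝ) ≤ j := by exact_mod_cast c1
    have e2 : (j : ℝ) ≤ l := by exact_mod_cast c2
    have e3 : (l : ℝ) ≤ i + M := by exact_mod_cast c3
    have := conv_real (x := X b - X a) (y := Y b - Y a) (α := φ + i * δ) (β := φ + j * δ)
      (γ := φ + l * δ) (by nlinarith) (by nlinarith) (by nlinarith) (by linarith) (by linarith)
    linarith
  · by_contra c
    have e : φ + ((i + 1 : ℤ) : ℝ) * δ = φ + i * δ + δ := by push_cast; ring
    simp only [e] at c2 c4
    have ab : a ≠ b := fun e => lt_irrefl _ (e ▸ c1)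
    have ab' : a ≠ b' := fun e => lt_irrefl _ (e ▸ c3)
    have := one_real (x := X b - X a) (y := Y b - Y a) (x' := X b' - X a) (y' := Y b' - Y a)
      (α := φ + i * δ) d0 d2 (by linarith) (by linarith) (by linarith) (by linarith)
    have h3 := hM' (a, b, b') ab c ab'
    simp only at h3
    rw [hδ] at this
    refine absurd (this.trans_lt' h3) (not_lt.2 (le_of_eq ?_))
    ring

end Pool.Agent.P.MP_3c7b76_co.S
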