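import Pool.Agent.P.MP_3c7b76_co.S.Clu
import Pool.Agent.P.MP_3c7b76_co.S.Geo

/-! The sparse range for graphs with a sparse densest subgraph. -/

namespace Pool.Agent.P.MP_3c7b76_co.S

open Finset

theorem exists_line {V : Type} [Fintype V] (p : V → EuclideanSpace ℝ (Fin 2)) (σ : V → Prop)
    {α β : ℝ} (h0 : α ≠ 0 ∨ β ≠ 0)
    (h : ∀ a b, σ a → ¬ σ b → α * p b 0 + β * p b 1 ≤ α * p a 0 + β * p a 1) :
    ∃ L : AffineSubspace ℝ (EuclideanSpace ℝ (Fin 2)), Module.finrank ℝ L.direction = 1 ∧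
      ∀ a b, σ a → ¬ σ b →
        ((L : Set (EuclideanSpace ℝ (Fin 2))) ∩ segment ℝ (p a) (p b)).Nonempty := by
  classical
  obtain ⟨z, hz⟩ : ∃ z : EuclideanSpace ℝ (Fin 2), ∀ a b, σ a → ¬ σ b →
      α * p b 0 + β * p b 1 ≤ α * z 0 + β * z 1 ∧ α * z 0 + β * z 1 ≤ α * p a 0 + β * p a 1 := by
    by_cases hc : (univ.filter σ).Nonempty
    · obtain ⟨a0, a1, a2⟩ := exists_min_image _ (fun a => α * p a 0 + β * p a 1) hc
      exact ⟨p a0, fun a b ha hb => ⟨h a0 b (mem_filter.1 a1).2 hb,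
        a2 a (mem_filter.2 ⟨mem_univ _, ha⟩)⟩⟩
    · exact ⟨0, fun a b ha _ => absurd ⟨a, mem_filter.2 ⟨mem_univ _, ha⟩⟩ hc⟩
  have hp : 0 < α ^ 2 + β ^ 2 := by
    rcases h0 with h0 | h0 <;> positivity
  have hv : (!₂[-β, α] : EuclideanSpace ℝ (Fin 2)) ≠ 0 := fun e => by
    have e0 := congrArg (fun w : EuclideanSpace ℝ (Fin 2) => w 0) e
    have e1 := congrArg (fun w : EuclideanSpace ℝ (Fin 2) => w 1) e
    simp at e0 e1
    tauto
  refine ⟨AffineSubspace.mk' z (Submodule.span ℝ {!₂[-β, α]}), ?_, fun a b ha hb => ?_⟩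
  · rw [AffineSubspace.direction_mk']
    exact finrank_span_singleton hv
  · obtain ⟨h1, h2⟩ := hz a b ha hb
    obtain ⟨l, l0, l1, l2⟩ : ∃ l : ℝ, 0 ≤ l ∧ l ≤ 1 ∧
        l * (α * p a 0 + β * p a 1) + (1 - l) * (α * p b 0 + β * p b 1) = α * z 0 + β * z 1 := by
      rcases (h1.trans h2).eq_or_lt with he | hl
      · exact ⟨0, le_rfl, zero_le_one, by linarith⟩
      · have hp := sub_pos.2 hl
        refine ⟨(α * z 0 + β * z 1 - (α * p b 0 + β * p b 1)) /
          (α * p a 0 + β * p a 1 - (α * p b 0 + β * p b 1)), div_nonneg (by linarith) hp.le,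
          (div_le_one hp).2 (by linarith), ?_⟩
        field_simp
        ring
    refine ⟨l • p a + (1 - l) • p b, ?_, l, 1 - l, l0, sub_nonneg.2 l1, by ring, rfl⟩
    rw [SetLike.mem_coe, AffineSubspace.mem_mk', Submodule.mem_span_singleton]
    refine ⟨(-β * (l * p a 0 + (1 - l) * p b 0 - z 0) + α * (l * p a 1 + (1 - l) * p b 1 - z 1)) /
      (α ^ 2 + β ^ 2), ?_⟩
    ext i
    fin_cases i
    · simp
      field_simp
      linear_combination (-α) * l2
    · simp
      field_simp
      linear_combination (-β) * l2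

open Classical in
theorem two_e {V : Type} [Fintype V] (G : SimpleGraph V) :
    (2 * G.edgeSet.ncard : ℝ) = ∑ u, ∑ v, if G.Adj u v then (1 : ℝ) else 0 := by
  have e1 : G.edgeSet.ncard = G.edgeFinset.card := by
    rw [← SimpleGraph.coe_edgeFinset, Set.ncard_coe_finset]
  have e2 := G.two_mul_card_edgeFinset
  rw [← Fintype.sum_prod_type' (f := fun u v => if G.Adj u v then (1 : ℝ) else 0), sum_boole, e1]
  exact_mod_cast e2

open Classical in
theorem two_e' {V : Type} [Fintype V] (G : SimpleGraph V) (Z : Finset V) :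
    (2 * (G.induce (Z : Set V)).edgeSet.ncard : ℝ) =
      ∑ u ∈ Z, ∑ v ∈ Z, if G.Adj u v then (1 : ℝ) else 0 := by
  rw [two_e, ← sum_coe_sort Z]
  refine sum_congr (by ext; simp) fun u _ => ?_
  rw [← sum_coe_sort Z]
  exact sum_congr (by ext; simp) fun v _ => by simp

theorem cross_ne {a b c : EuclideanSpace ℝ (Fin 2)} (hab : b 0 - a 0 ≠ 0 ∨ b 1 - a 1 ≠ 0)
    (h : ¬ Collinear ℝ ({a, b, c} : Set (EuclideanSpace ℝ (Fin 2)))) :
    (b 0 - a 0) * (c 1 - a 1) - (b 1 - a 1) * (c 0 - a 0) ≠ 0 := by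
  intro e
  apply h
  rw [collinear_iff_of_mem (p₀ := a) (by simp)]
  have hp : 0 < (b 0 - a 0) ^ 2 + (b 1 - a 1) ^ 2 := by
    rcases hab with h0 | h0 <;> positivity
  refine ⟨b - a, fun q hq => ?_⟩
  simp only [Set.mem_insert_iff, Set.mem_singleton_iff] at hq
  rcases hq with rfl | rfl | rfl
  · exact ⟨0, by simp⟩
  · exact ⟨1, by simp⟩
  · refine ⟨((q 0 - a 0) * (b 0 - a 0) + (q 1 - a 1) * (b 1 - a 1)) /
      ((b 0 - a 0) ^ 2 + (b 1 - a 1) ^ 2), ?_⟩
    ext i
    fin_cases i
    · simp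
      field_simp
      linear_combination (-(b 1 - a 1)) * e
    · simp
      field_simp
      linear_combination (b 0 - a 0) * e

theorem sparse (n : ℕ) (p : Fin n → EuclideanSpace ℝ (Fin 2)) (G : SimpleGraph (Fin n))
    (W : Finset (Fin n)) (hp : Function.Injective p)
    (hcol : ∀ i j k : Fin n, i ≠ j → j ≠ k → i ≠ k →
      ¬ Collinear ℝ ({p i, p j, p k} : Set (EuclideanSpace ℝ (Fin 2))))
    (hW : W.Nonempty)
    (hmax : ∀ Y : Finset (Fin n), (G.induce (Y : Set (Fin n))).edgeSet.ncard * W.card ≤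
      (G.induce (W : Set (Fin n))).edgeSet.ncard * Y.card)
    (h8 : 8 * (G.induce (W : Set (Fin n))).edgeSet.ncard ≤ W.card ^ 2) :
    ∃ L : AffineSubspace ℝ (EuclideanSpace ℝ (Fin 2)),
      Module.finrank ℝ L.direction = 1 ∧
      ((G.edgeSet.ncard : ℝ) ^ 2 / (n : ℝ) ^ 2 ≤
        (({q : Fin n × Fin n | q.1 < q.2 ∧ G.Adj q.1 q.2 ∧
            ((L : Set (EuclideanSpace ℝ (Fin 2))) ∩
              segment ℝ (p q.1) (p q.2)).Nonempty}).ncard : ℝ)) := by
  classical
  set e := (G.induce (W : Set (Fin n))).edgeSet.ncard with he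
  have hN : 0 < W.card := card_pos.2 hW
  have hN' : (0 : ℝ) < W.card := by exact_mod_cast hN
  have hn : (0 : ℝ) < n := by
    have := hN.trans_le (card_le_univ W)
    rw [Fintype.card_fin] at this
    exact_mod_cast this
  have hm : (G.edgeSet.ncard : ℝ) ^ 2 / (n : ℝ) ^ 2 ≤ ((e : ℝ) / W.card) ^ 2 := by
    have h1 := two_e G
    have h2 := two_e' G univ
    have h3 : ((G.induce ((univ : Finset (Fin n)) : Set (Fin n))).edgeSet.ncard : ℝ) * W.card ≤
        e * n := by
      have := hmax univ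
      rw [card_univ, Fintype.card_fin] at this
      exact_mod_cast this
    rw [← div_pow]
    refine pow_le_pow_left₀ (by positivity) ?_ 2
    rw [div_le_div_iff₀ hn hN']
    have : (G.edgeSet.ncard : ℝ) =
        (G.induce ((univ : Finset (Fin n)) : Set (Fin n))).edgeSet.ncard := by linarith
    rwa [this]
  obtain ⟨j, hj⟩ : ∃ j, j = e / W.card := ⟨_, rfl⟩
  have j1 : (j : ℝ) ≤ e / W.card := by rw [hj]; exact Nat.cast_div_le
  have j2 : (e : ℝ) / W.card < j + 1 := by
    rw [div_lt_iff₀ hN']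
    have h1 : e < (e / W.card + 1) * W.card := (Nat.div_lt_iff_lt_mul hN).1 (by omega)
    rw [← hj] at h1
    exact_mod_cast h1
  rcases Nat.eq_zero_or_pos j with j0 | j0
  · have hv : (!₂[1, 0] : EuclideanSpace ℝ (Fin 2)) ≠ 0 := fun e => by
      have e0 := congrArg (fun w : EuclideanSpace ℝ (Fin 2) => w 0) e
      simp at e0
    rcases G.edgeSet.eq_empty_or_nonempty with h0 | ⟨z, hz⟩
    · refine ⟨AffineSubspace.mk' 0 (Submodule.span ℝ {!₂[1, 0]}), ?_, by simp [h0]⟩
      rw [AffineSubspace.direction_mk']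
      exact finrank_span_singleton hv
    · obtain ⟨a, b, hab, hlt⟩ : ∃ a b, G.Adj a b ∧ a < b := by
        induction z using Sym2.ind with
        | _ a b =>
          have h : G.Adj a b := hz
          rcases lt_or_gt_of_ne h.ne with c | c
          exacts [⟨a, b, h, c⟩, ⟨b, a, h.symm, c⟩]
      refine ⟨AffineSubspace.mk' (p a) (Submodule.span ℝ {!₂[1, 0]}), ?_, hm.trans ?_⟩
      · rw [AffineSubspace.direction_mk']
        exact finrank_span_singleton hv
      · rw [j0] at j2
        refine le_trans (pow_le_one₀ (by positivity) (by simpa using j2.le)) ?_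
        rw [Nat.one_le_cast]
        exact (Set.ncard_pos (Set.toFinite _)).2 ⟨(a, b), hlt, hab, p a,
          AffineSubspace.self_mem_mk' _ _, left_mem_segment _ _ _⟩
  have g1 : ∀ a b : W, a ≠ b → p b 0 - p a 0 ≠ 0 ∨ p b 1 - p a 1 ≠ 0 := by
    intro a b hab
    by_contra c
    simp only [not_or, not_not] at c
    refine hab (Subtype.ext (hp ?_))
    ext i
    fin_cases i
    · simp only [Fin.zero_eta]; linarith [c.1]
    · simp only [Fin.mk_one]; linarith [c.2]
  obtain ⟨M, φ, hM, hA⟩ := exists_allow (V := W) (fun a => p a 0) (fun a => p a 1) g1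
    fun a b c x y z => cross_ne (g1 a b x) (hcol a b c (fun t => x (Subtype.ext t))
      (fun t => y (Subtype.ext t)) fun t => z (Subtype.ext t))
  set k : ℤ → W → ℝ := fun i a => Real.cos (φ i) * p a 0 + Real.sin (φ i) * p a 1 with hk
  let w : W → W → ℝ := fun a b => if G.Adj a b then 1 else 0
  have hw : Wt w := ⟨fun u v => by simp only [w]; split_ifs <;> norm_num,
    fun u v => by simp only [w]; split_ifs <;> norm_num,
    fun u v => by simp only [w, G.adj_comm], fun u => by simp [w]⟩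
  have hew : ∀ Y : Finset W, ew w Y Y =
      2 * (G.induce ((Y.map (Function.Embedding.subtype _) : Finset (Fin n)) :
        Set (Fin n))).edgeSet.ncard := by
    intro Y
    rw [two_e', sum_map]
    refine sum_congr rfl fun u _ => ?_
    rw [sum_map]
    rfl
  obtain ⟨H, hH, hH'⟩ := exists_max_image (univ.filter fun H : Finset W => ∃ i, Dn (k i) H)
    (fun H => ew w H Hᶜ) ⟨∅, mem_filter.2 ⟨mem_univ _, 0, fun P Q h => absurd h (by simp)⟩⟩
  obtain ⟨i, hi⟩ := (mem_filter.1 hH).2
  have hc := core (d := 2 * (e / W.card)) (j := j) hw hA hM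
    (fun i H h => hH' H (mem_filter.2 ⟨mem_univ _, i, h⟩)) (by
      unfold pot
      have : (univ : Finset W).map (Function.Embedding.subtype _) = W := by ext x; simp
      rw [hew, this, ← he, card_univ, Fintype.card_coe]
      field_simp
      ring) (fun Y => by
      unfold pot
      have h1 := hmax (Y.map (Function.Embedding.subtype _))
      rw [card_map] at h1
      have h2 : ((G.induce ((Y.map (Function.Embedding.subtype _) : Finset (Fin n)) :
        Set (Fin n))).edgeSet.ncard : ℝ) * W.card ≤ e * Y.card := by exact_mod_cast h1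
      rw [← le_div_iff₀ hN'] at h2
      rw [hew]
      have : (e : ℝ) * Y.card / W.card = e / W.card * Y.card := by ring
      linarith) j0 (by
      rw [Fintype.card_coe]
      have h1 : j * W.card ≤ e := by rw [hj]; exact Nat.div_mul_le_self _ _
      refine Nat.le_of_mul_le_mul_right (c := W.card) ?_ hN
      nlinarith)
  obtain ⟨L, L1, L2⟩ := exists_line (fun a : W => p a) (fun a => a ∉ H)
    (α := Real.cos (φ i)) (β := Real.sin (φ i)) (by
      by_contra c
      simp only [not_or, not_not] at c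
      have := Real.sin_sq_add_cos_sq (φ i)
      rw [c.1, c.2] at this
      simp at this) fun a b x y => (hi b a (not_not.1 y) x).le
  refine ⟨L, L1, hm.trans (le_trans ?_ (hc.trans ?_))⟩
  · have : (1 : ℝ) ≤ j := by exact_mod_cast j0
    nlinarith
  · unfold ew
    rw [← sum_product' (f := w), sum_boole, Nat.cast_le, ← Set.ncard_coe_finset]
    refine Set.ncard_le_ncard_of_injOn (fun q => (min q.1.1 q.2.1, max q.1.1 q.2.1))
      (fun q hq => ?_) (fun q hq r hr e => ?_) (Set.toFinite _)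
    · simp only [coe_filter, mem_product, mem_compl, Set.mem_ofPred_eq] at hq ⊢
      have s := L2 q.2 q.1 hq.1.2 (not_not.2 hq.1.1)
      rcases lt_or_gt_of_ne hq.2.ne with c | c
      · rw [min_eq_left c.le, max_eq_right c.le, segment_symm]
        exact ⟨c, hq.2, s⟩
      · rw [min_eq_right c.le, max_eq_left c.le]
        exact ⟨c, hq.2.symm, s⟩
    · simp only [coe_filter, mem_product, mem_compl, Set.mem_ofPred_eq, Prod.mk.injEq] at hq hr e
      have n1 : q.1.1 ≠ r.2.1 := fun t => hr.1.2 (Subtype.ext t ▸ hq.1.1)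
      have n2 : q.2.1 ≠ r.1.1 := fun t => hq.1.2 (Subtype.ext t ▸ hr.1.1)
      have : q.1.1 = r.1.1 ∧ q.2.1 = r.2.1 := by
        obtain ⟨e1, e2⟩ := e
        rcases le_total q.1.1 q.2.1 with c | c <;> rcases le_total r.1.1 r.2.1 with c' | c' <;>
          simp only [min_eq_left, min_eq_right, max_eq_left, max_eq_right, c, c'] at e1 e2 <;>
          tauto
      exact Prod.ext (Subtype.ext this.1) (Subtype.ext this.2)

end Pool.Agent.P.MP_3c7b76_co.S
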