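import Pool.Agent.P.MP_3c7b76_co.S.Seq

/-! The rotating carrier and its half circle property. -/

set_option linter.unusedSectionVars false

namespace Pool.Agent.P.MP_3c7b76_co.S

open Finset

variable {V : Type} [Fintype V] [DecidableEq V]

/-- The carrier of a pair of orders. -/
noncomputable def car (k : ℤ → V → ℝ) (β j : ℕ) (s : ℤ × ℤ) : Finset V :=
  lo (k s.1) univ (β + j) ∩ lo (k s.2) univ (β + 2 * j)

/-- Valid pairs of orders. -/
def St (M : ℕ) (k : ℤ → V → ℝ) (β j : ℕ) (s : ℤ × ℤ) : Prop :=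
  s.1 ≤ s.2 ∧ s.2 ≤ s.1 + M ∧ (car k β j s).card = β

variable {M : ℕ} {k : ℤ → V → ℝ} {β j : ℕ}

theorem gap (h : Allow M k) (hn : 2 * β + 4 * j < Fintype.card V) {s t : ℤ × ℤ}
    (ht : St M k β j t) {p : V} (h1 : p ∈ car k β j s) (h2 : p ∈ car k β j t)
    (h3 : t.1 ≤ s.1 + M) (h4 : s.1 + M ≤ t.2) : False := by
  unfold car at h1 h2
  rw [mem_inter] at h1 h2
  have c1 := card_lo_univ (h.inj t.1) (a := β + j) (by omega)
  have c2 := card_lo_univ (h.inj t.2) (a := β + 2 * j) (by omega)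
  have c3 := card_lo_univ (h.inj s.1) (a := β + j) (by omega)
  have c4 := card_union_add_card_inter (lo (k t.1) univ (β + j)) (lo (k t.2) univ (β + 2 * j))
  have c5 := ht.2.2
  unfold car at c5
  have : (univ : Finset V) ⊆ (lo (k t.1) univ (β + j) ∪ lo (k t.2) univ (β + 2 * j)) ∪
      lo (k s.1) univ (β + j) := by
    intro Q _
    by_contra hQ
    simp only [mem_union, not_or] at hQ
    exact hQ.2 ((lo_dn _ _ _).mem h1.1 ((h.rev _ _ _).1 (h.conv _ _ _ _ _ h3 h4 ht.2.1
      (lo_dn _ _ _ _ _ h2.1 hQ.1.1) (lo_dn _ _ _ _ _ h2.2 hQ.1.2))))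
  have c6 := (card_le_card this).trans (card_union_le _ _)
  rw [card_univ] at c6
  omega

theorem enter (h : Allow M k) {s t : ℤ × ℤ} (ht : St M k β j t) {p Q : V}
    (h2 : p ∈ car k β j t) (h3 : s.1 ≤ t.1) (h4 : t.2 ≤ s.1 + M) (h5 : k s.1 p < k s.1 Q)
    (h6 : k t.1 Q < k t.1 p) : Q ∈ car k β j t := by
  unfold car at h2 ⊢
  rw [mem_inter] at h2 ⊢
  exact ⟨(lo_dn _ _ _).mem h2.1 h6, (lo_dn _ _ _).mem h2.2
    (h.conv _ _ _ _ _ ht.1 h4 (by omega) h6 ((h.rev _ _ _).2 h5))⟩

theorem car_per (h : Allow M k) (s : ℤ × ℤ) :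
    car k β j (s.1 + M + M, s.2 + M + M) = car k β j s := by
  unfold car
  rw [lo_congr (h.per s.1), lo_congr (h.per s.2)]

/-- The half circle property. -/
theorem half (h : Allow M k) (hn : 2 * β + 4 * j < Fintype.card V) (hn' : 3 * β < Fintype.card V)
    {s t u : ℤ × ℤ} (hs : St M k β j s) (ht : St M k β j t) (hu : St M k β j u) {p : V}
    (ps : p ∈ car k β j s) (pt : p ∈ car k β j t) (pu : p ∈ car k β j u)
    (h1 : s.1 ≤ t.1) (h2 : t.1 ≤ u.1) (h3 : t.1 ≤ s.1 + M) (h4 : u.1 ≤ t.1 + M) :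
    u.1 < s.1 + M := by
  by_contra h5
  rw [not_lt] at h5
  have hv : St M k β j (s.1 + M + M, s.2 + M + M) :=
    ⟨by have := hs.1; simp only; omega, by have := hs.2.1; simp only; omega,
      by rw [car_per h]; exact hs.2.2⟩
  have pv : p ∈ car k β j (s.1 + M + M, s.2 + M + M) := by rwa [car_per h]
  have g1 : t.2 ≤ s.1 + M := by
    by_contra g
    exact gap h hn ht ps pt h3 (by omega)
  have g2 : u.2 ≤ t.1 + M := by
    by_contra g
    exact gap h hn hu pt pu h4 (by omega)
  have g3 : s.2 + M + M ≤ u.1 + M := by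
    by_contra g
    exact gap h hn hv pu pv (by simp only; omega) (by simp only; omega)
  have : (univ : Finset V) ⊆ car k β j s ∪ car k β j t ∪ car k β j u := by
    intro Q _
    simp only [mem_union]
    by_cases e : p = Q
    · exact Or.inr (e ▸ pu)
    have a12 := fun x y => enter h (Q := Q) ht pt h1 g1 x y
    have a23 := fun x y => enter h (Q := Q) hu pu h2 g2 x y
    have a31 : k u.1 p < k u.1 Q → k s.1 Q < k s.1 p → Q ∈ car k β j s := fun x y => by
      rw [← car_per h]
      exact enter h (s := u) hv pv (by simp only; omega) g3 x ((h.per _ _ _).2 y)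
    rcases h.tri s.1 e with x | x <;> rcases h.tri t.1 e with y | y <;>
      rcases h.tri u.1 e with z | z
    · exact absurd ((h.rev _ _ _).1 (h.conv _ _ _ _ _ h3 h5 h4 y z)) (lt_asymm x)
    · exact Or.inr (a23 y z)
    · exact Or.inl (Or.inr (a12 x y))
    · exact Or.inl (Or.inr (a12 x y))
    · exact Or.inl (Or.inl (a31 z x))
    · exact Or.inr (a23 y z)
    · exact Or.inl (Or.inl (a31 z x))
    · exact absurd ((h.rev _ _ _).1 (h.conv _ _ _ _ _ h3 h5 h4 y z)) (lt_asymm x)
  have c1 := (card_le_card this).trans (card_union_le _ _)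
  have c2 := card_union_le (car k β j s) (car k β j t)
  rw [card_univ, hu.2.2] at c1
  rw [hs.2.2, ht.2.2] at c2
  omega

theorem car_diag (h : Allow M k) (hn : β + 2 * j ≤ Fintype.card V) (i : ℤ) :
    (car k β j (i, i)).card = β + j := by
  have c1 := card_lo_univ (h.inj i) (a := β + j) (by omega)
  have c2 := card_lo_univ (h.inj i) (a := β + 2 * j) hn
  unfold car
  rw [inter_eq_left.2 ((lo_dn _ _ _).sub (lo_dn _ _ _) (by simp only; omega)), c1]

theorem car_anti (h : Allow M k) (hn : 2 * β + 3 * j ≤ Fintype.card V) (i : ℤ) :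
    (car k β j (i, i + M)).card = 0 := by
  have c1 := card_lo_univ (h.inj i) (a := β + j) (by omega)
  have c2 := card_lo_univ (h.inj (i + M)) (a := β + 2 * j) (by omega)
  have c3 := card_compl (lo (k i) univ (β + j))
  have d : Dn (k (i + M)) (lo (k i) univ (β + j))ᶜ := fun P Q hP hQ =>
    (h.rev _ _ _).2 (lo_dn _ _ _ _ _ (by simpa using hQ) (mem_compl.1 hP))
  have := (lo_dn (k (i + M)) univ (β + 2 * j)).sub d (by omega)
  rw [card_eq_zero]
  exact eq_empty_of_forall_notMem fun x hx =>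
    mem_compl.1 (this (mem_inter.1 hx).2) (mem_inter.1 hx).1

theorem lo_swap (h : Allow M k) (i : ℤ) {a : ℕ} (ha : a ≤ Fintype.card V) :
    (lo (k (i + 1)) univ a \ lo (k i) univ a).card ≤ 1 ∧
      (lo (k i) univ a \ lo (k (i + 1)) univ a).card ≤ 1 := by
  have c1 := card_lo_univ (h.inj i) ha
  have c2 := card_lo_univ (h.inj (i + 1)) ha
  have := h.swap (F := univ) (lo_dn (k i) univ a) (lo_dn (k (i + 1)) univ a)
    (by rw [univ_inter, univ_inter, c1, c2])
  rw [univ_inter, univ_inter] at this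
  exact ⟨this, by rwa [sdiff_card_eq (c1.trans c2.symm)]⟩

theorem exists_st (h : Allow M k) (hn : 2 * β + 3 * j ≤ Fintype.card V) :
    ∃ s, St M k β j s := by
  have key : ∀ n : ℕ, (car k β j (0, n)).card ≤ (car k β j (0, (n + 1 : ℕ))).card + 1 := by
    intro n
    have := inter_le (lo_swap h n (a := β + 2 * j) (by omega)).2 (lo (k 0) univ (β + j))
    unfold car
    rw [inter_comm, inter_comm (lo (k 0) univ (β + j))]
    exact_mod_cast this
  obtain ⟨n, hn⟩ := ivt (fun n : ℕ => (car k β j (0, (min n M : ℕ))).card) β (fun n => by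
      rcases lt_or_ge n M with a | a
      · rw [min_eq_left a.le, min_eq_left (by omega)]; exact key n
      · rw [min_eq_right a, min_eq_right (by omega)]; omega)
    (by have := car_diag (β := β) (j := j) h (by omega) 0
        simp only [zero_le, min_eq_left, Nat.cast_zero]; omega) M
    (by have := car_anti h hn 0
        rw [zero_add] at this
        simp only [min_self]; omega)
  exact ⟨(0, (min n M : ℕ)), by simp only; omega, by simp only; omega, hn⟩

/-- One step of the staircase. -/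
theorem step (h : Allow M k) (hn : 2 * β + 3 * j ≤ Fintype.card V) (hj : 0 < j) (hβ : 0 < β)
    {s : ℤ × ℤ} (hs : St M k β j s) : ∃ t, St M k β j t ∧ s.1 ≤ t.1 ∧ t.1 ≤ s.1 + 1 ∧
      s.1 + s.2 < t.1 + t.2 ∧ (car k β j s \ car k β j t).card ≤ 1 := by
  obtain ⟨i, l⟩ := s
  obtain ⟨h1, h2, h3⟩ := hs
  simp only at h1 h2 ⊢
  have n1 : i ≠ l := fun e => by
    subst e
    have := car_diag (β := β) (j := j) h (by omega) i
    omega
  have n2 : l ≠ i + M := fun e => by
    subst e
    have := car_anti h hn i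
    omega
  have sA := lo_swap h i (a := β + j) (by omega)
  have sT := lo_swap h l (a := β + 2 * j) (by omega)
  have cA := card_lo_univ (h.inj i) (a := β + j) (by omega)
  have cA' := card_lo_univ (h.inj (i + 1)) (a := β + j) (by omega)
  have cT := card_lo_univ (h.inj l) (a := β + 2 * j) (by omega)
  have cT' := card_lo_univ (h.inj (l + 1)) (a := β + 2 * j) (by omega)
  have dA := lo_dn (k i) univ (β + j)
  have dA' := lo_dn (k (i + 1)) univ (β + j)
  have dT := lo_dn (k l) univ (β + 2 * j)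
  have dT' := lo_dn (k (l + 1)) univ (β + 2 * j)
  unfold St car at *
  simp only at h3 ⊢
  set A := lo (k i) univ (β + j)
  set A' := lo (k (i + 1)) univ (β + j)
  set T := lo (k l) univ (β + 2 * j)
  set T' := lo (k (l + 1)) univ (β + 2 * j)
  have kA : ∀ P Q, Q ∈ A → Q ∉ A' → P ∈ A' → P ∉ A → Q ∈ T → P ∈ T := by
    intro P Q a1 a2 a3 a4 a5
    have e : Q ≠ P := fun e => a2 (e ▸ a3)
    rcases h.tri l e with x | x
    · exact absurd (h.conv i (i + 1) l _ _ (by omega) (by omega) h2 (dA _ _ a1 a4) x)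
        (lt_asymm (dA' _ _ a3 a2))
    · exact dT.mem a5 x
  have kT : ∀ P Q, P ∈ T → P ∉ T' → Q ∈ T' → Q ∉ T → Q ∈ A → P ∈ A := by
    intro P Q a1 a2 a3 a4 a5
    have e : Q ≠ P := fun e => a2 (e ▸ a3)
    rcases h.tri i e with x | x
    · exact absurd (h.conv i l (l + 1) _ _ h1 (by omega) (by omega) x (dT' _ _ a3 a2))
        (lt_asymm (dT _ _ a1 a4))
    · exact dA.mem a5 x
  have m1 : (A ∩ T).card ≤ (A' ∩ T).card :=
    inter_mono (cA'.trans cA.symm) fun P Q a1 a2 a3 a4 a5 => kA P Q a3 a4 a1 a2 a5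
  have m2 : (T' ∩ A).card ≤ (T ∩ A).card := inter_mono (cT.trans cT'.symm) kT
  have m3 := inter_le sA.1 T
  have m4 := inter_le sT.2 A
  have m5 := inter_le sT.2 A'
  have m6 := inter_le sA.1 T'
  rw [inter_comm T', inter_comm T] at m2
  rw [inter_comm T', inter_comm T] at m4
  rw [inter_comm T', inter_comm T] at m5
  by_cases c1 : (A' ∩ T).card = β
  · refine ⟨(i + 1, l), ⟨by simp only; omega, by simp only; omega, c1⟩, by simp only; omega,
      le_rfl, by simp only; omega, le_trans (card_le_card fun x hx => ?_) sA.2⟩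
    simp only [mem_sdiff, mem_inter] at hx ⊢
    tauto
  by_cases c2 : (A ∩ T').card = β
  · refine ⟨(i, l + 1), ⟨by simp only; omega, by simp only; omega, c2⟩, le_rfl,
      by simp only; omega, by simp only; omega, le_trans (card_le_card fun x hx => ?_) sT.2⟩
    simp only [mem_sdiff, mem_inter] at hx ⊢
    tauto
  have c3 : (A' ∩ T').card = β := by omega
  refine ⟨(i + 1, l + 1), ⟨by simp only; omega, by simp only; omega, c3⟩,
    by simp only; omega, le_rfl, by simp only; omega, le_trans (card_le_card fun x hx => ?_) sT.2⟩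
  simp only [mem_sdiff, mem_inter] at hx ⊢
  refine ⟨hx.1.2, fun a => hx.2 ⟨?_, a⟩⟩
  by_contra b
  have s1 : A' ∩ T ⊆ ((A ∩ T).erase x) ∪ (A' \ A) := fun y hy => by
    simp only [mem_sdiff, mem_inter, mem_union, mem_erase] at hy ⊢
    by_cases e : y ∈ A
    · exact Or.inl ⟨fun e' => b (e' ▸ hy.1), e, hy.2⟩
    · exact Or.inr ⟨hy.1, e⟩
  have s2 := (card_le_card s1).trans (card_union_le _ _)
  rw [card_erase_of_mem (mem_inter.2 hx.1)] at s2
  omega

end Pool.Agent.P.MP_3c7b76_co.S
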