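import Pool.Agent.P.MP_3c7b76_co.S.Pot
import Pool.Agent.P.MP_3c7b76_co.S.Car

/-! The cluster lemma and the abstract theorem. -/

set_option linter.unusedSectionVars false

namespace Pool.Agent.P.MP_3c7b76_co.S

open Finset

variable {V : Type} [Fintype V] [DecidableEq V]

open Classical in
/-- The part of a carrier seen less than half a turn ago. -/
noncomputable def tok (M : ℕ) (k : ℤ → V → ℝ) (β j : ℕ) (s : ℕ → ℤ × ℤ) (t : ℕ) (u : ℤ × ℤ) :
    Finset V :=
  (car k β j u).filter fun p => ∃ r < t, p ∈ car k β j (s r) ∧ u.1 < (s r).1 + M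

variable {M : ℕ} {k : ℤ → V → ℝ} {β j : ℕ}

theorem mem_tok {s : ℕ → ℤ × ℤ} {t : ℕ} {u : ℤ × ℤ} {p : V} : p ∈ tok M k β j s t u ↔
    p ∈ car k β j u ∧ ∃ r < t, p ∈ car k β j (s r) ∧ u.1 < (s r).1 + M := by
  unfold tok
  rw [mem_filter]

theorem next (h : Allow M k) (hn : 2 * β + 4 * j < Fintype.card V) (hn' : 3 * β < Fintype.card V)
    (hj : 0 < j) (hβ : 0 < β) {s : ℕ → ℤ × ℤ} (hs : ∀ r, St M k β j (s r)) {t : ℕ} {i : ℤ}
    (hi : ∀ r < t, (s r).1 ≤ i) (N : ℕ) : ∀ u, St M k β j u → i ≤ u.1 →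
      j ≤ (tok M k β j s t u).card → 2 * i + 3 * M ≤ u.1 + u.2 + N →
      ∃ v, St M k β j v ∧ i ≤ v.1 ∧ (tok M k β j s t v).card = j := by
  induction N with
  | zero =>
    intro u h1 h2 h3 h4
    obtain ⟨p, hp⟩ : (tok M k β j s t u).Nonempty := card_pos.1 (by omega)
    obtain ⟨-, r, a1, -, a2⟩ := mem_tok.1 hp
    have := hi r a1
    have := h1.2.1
    omega
  | succ N ih =>
    intro u h1 h2 h3 h4
    rcases h3.eq_or_lt with e | e
    · exact ⟨u, h1, h2, e.symm⟩
    obtain ⟨v, b1, b2, b3, b4, b5⟩ := step h (by omega) hj hβ h1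
    refine ih v b1 (by omega) ?_ (by push_cast at h4; omega)
    have : tok M k β j s t u ⊆ tok M k β j s t v ∪ (car k β j u \ car k β j v) := by
      intro p hp
      obtain ⟨a0, r, a1, a2, a3⟩ := mem_tok.1 hp
      by_cases c : p ∈ car k β j v
      · have := hi r a1
        exact mem_union_left _ (mem_tok.2 ⟨c, r, a1, a2,
          half h hn hn' (hs r) (hs r) b1 a2 a2 c le_rfl (by omega) (by omega) (by omega)⟩)
      · exact mem_union_right _ (mem_sdiff.2 ⟨a0, c⟩)
    have := (card_le_card this).trans (card_union_le _ _)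
    omega

theorem exists_seq (h : Allow M k) (hM : 0 < M) (hn : 2 * β + 4 * j < Fintype.card V)
    (hn' : 3 * β < Fintype.card V) (hj : 0 < j) (hβ : j ≤ β) (T : ℕ) :
    ∃ s : ℕ → ℤ × ℤ, (∀ t, St M k β j (s t)) ∧ Monotone (fun t => (s t).1) ∧
      ∀ t, 1 ≤ t → t ≤ T → (tok M k β j s t (s t)).card = j := by
  induction T with
  | zero =>
    obtain ⟨u, hu⟩ := exists_st (β := β) (j := j) h (by omega)
    exact ⟨fun _ => u, fun _ => hu, monotone_const, fun t a b => by omega⟩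
  | succ T ih =>
    obtain ⟨s, h1, h2, h3⟩ := ih
    have e : tok M k β j s (T + 1) (s T) = car k β j (s T) := by
      ext p
      rw [mem_tok]
      exact ⟨fun a => a.1, fun a => ⟨a, T, by omega, a, by omega⟩⟩
    obtain ⟨v, b1, b2, b3⟩ := next h hn hn' hj (by omega) h1 (t := T + 1) (i := (s T).1)
      (fun r hr => h2 (by omega : r ≤ T)) (3 * M) (s T) (h1 T) le_rfl
      (by rw [e, (h1 T).2.2]; exact hβ) (by have := (h1 T).1; push_cast; omega)
    have e2 : ∀ t u, t ≤ T + 1 →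
        tok M k β j (fun t => if t ≤ T then s t else v) t u = tok M k β j s t u := by
      intro t u ht
      ext p
      simp only [mem_tok]
      refine and_congr_right fun _ => exists_congr fun r => and_congr_right fun hr => ?_
      rw [if_pos (by omega)]
    refine ⟨fun t => if t ≤ T then s t else v, fun t => ?_, fun a b hab => ?_, fun t a b => ?_⟩
    · simp only
      split_ifs
      exacts [h1 t, b1]
    · simp only
      split_ifs with c1 c2 c2
      · exact h2 hab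
      · exact le_trans (h2 c1) b2
      · omega
      · exact le_rfl
    · rw [e2 t _ b]
      simp only
      split_ifs with c
      · exact h3 t a c
      · rw [show t = T + 1 by omega]; exact b3

theorem pair_count (h : Allow M k) (hM : 0 < M) (hn : 2 * β + 4 * j < Fintype.card V)
    (hn' : 3 * β < Fintype.card V) {s : ℕ → ℤ × ℤ} (h1 : ∀ t, St M k β j (s t))
    (h2 : Monotone fun t => (s t).1) (T : ℕ) (u v : V) :
    ((range T).filter fun t => (u ∈ car k β j (s t) ∧ v ∈ car k β j (s t)) ∧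
      ¬ (u ∈ tok M k β j s t (s t) ∧ v ∈ tok M k β j s t (s t))).card ≤
    ((range T).filter fun t => u ∈ car k β j (s t) \ tok M k β j s t (s t)).card := by
  classical
  let f : ℕ → ℕ := fun t => sInf {r | u ∈ car k β j (s r) ∧ (s t).1 < (s r).1 + M}
  have f1 : ∀ t, u ∈ car k β j (s t) → f t ≤ t ∧ u ∈ car k β j (s (f t)) ∧
      (s t).1 < (s (f t)).1 + M := fun t ht =>
    have a : t ∈ {r | u ∈ car k β j (s r) ∧ (s t).1 < (s r).1 + M} := ⟨ht, by omega⟩
    ⟨Nat.sInf_le a, Nat.sInf_mem ⟨t, a⟩⟩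
  have key : ∀ t t', t < t' → u ∈ car k β j (s t) → v ∈ car k β j (s t) →
      u ∈ car k β j (s t') → v ∈ car k β j (s t') → f t = f t' →
      u ∈ tok M k β j s t' (s t') ∧ v ∈ tok M k β j s t' (s t') := by
    intro t t' a1 a2 a3 a4 a5 a6
    have b1 := f1 t a2
    have b2 := f1 t' a4
    have b3 : (s (f t)).1 ≤ (s t).1 := h2 b1.1
    rw [← a6] at b2
    exact ⟨mem_tok.2 ⟨a4, t, a1, a2, by omega⟩, mem_tok.2 ⟨a5, t, a1, a3, by omega⟩⟩
  refine card_le_card_of_injOn f (fun t ht => ?_) (fun t ht t' ht' e => ?_)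
  · rw [mem_coe, mem_filter, mem_range] at ht ⊢
    obtain ⟨b1, b2, b3⟩ := f1 t ht.2.1.1
    refine ⟨by omega, mem_sdiff.2 ⟨b2, fun c => ?_⟩⟩
    obtain ⟨-, r, c1, c2, c3⟩ := mem_tok.1 c
    have := half h hn hn' (h1 r) (h1 (f t)) (h1 t) c2 b2 ht.2.1.1 (h2 c1.le) (h2 b1) c3.le b3.le
    have : f t ≤ r := Nat.sInf_le (show r ∈ {r | u ∈ car k β j (s r) ∧ (s t).1 < (s r).1 + M} from
      ⟨c2, this⟩)
    omega
  · rw [mem_coe, mem_filter] at ht ht'
    rcases lt_trichotomy t t' with c | c | c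
    · exact absurd (key t t' c ht.2.1.1 ht.2.1.2 ht'.2.1.1 ht'.2.1.2 e) ht'.2.2
    · exact c
    · exact absurd (key t' t c ht'.2.1.1 ht'.2.1.2 ht.2.1.1 ht.2.1.2 e.symm) ht.2.2

variable {w : V → V → ℝ} {d c : ℝ}

theorem ew_diff (w : V → V → ℝ) {X B : Finset V} (h : X ⊆ B) :
    ew w B B - ew w X X = ∑ u, ∑ v, w u v *
      if (u ∈ B ∧ v ∈ B) ∧ ¬ (u ∈ X ∧ v ∈ X) then (1 : ℝ) else 0 := by
  have e : ∀ Y : Finset V, ew w Y Y = ∑ u, ∑ v, if u ∈ Y ∧ v ∈ Y then w u v else 0 := by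
    intro Y
    unfold ew
    rw [← sum_ite_mem_eq]
    refine sum_congr rfl fun u _ => ?_
    split_ifs with a
    · rw [← sum_ite_mem_eq]; simp [a]
    · simp [a]
  rw [e, e, ← sum_sub_distrib]
  refine sum_congr rfl fun u _ => ?_
  rw [← sum_sub_distrib]
  refine sum_congr rfl fun v _ => ?_
  by_cases a : u ∈ X ∧ v ∈ X
  · simp [a, h a.1, h a.2]
  · rw [if_neg a]
    by_cases b : u ∈ B ∧ v ∈ B
    · rw [if_pos b, if_pos ⟨b, a⟩]; ring
    · rw [if_neg b, if_neg fun x => b x.1]; ring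

theorem cluster (hw : Wt w) (hb : ∀ Y, 0 ≤ pot w d Y) (T : ℕ) (B X : ℕ → Finset V)
    (hX : ∀ t, X t ⊆ B t)
    (hp : ∀ u v, ((range T).filter fun t => (u ∈ B t ∧ v ∈ B t) ∧ ¬ (u ∈ X t ∧ v ∈ X t)).card ≤
      ((range T).filter fun t => u ∈ B t \ X t).card) :
    ∑ t ∈ range T, pot w d (X t) ≤ ∑ t ∈ range T, pot w d (B t) := by
  have h1 := layer hb fun u => ((range T).filter fun t => u ∈ B t \ X t).card
  have h2 : ∑ t ∈ range T, (ew w (B t) (B t) - ew w (X t) (X t)) ≤ ∑ u, ∑ v, w u v *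
      (min ((range T).filter fun t => u ∈ B t \ X t).card
        ((range T).filter fun t => v ∈ B t \ X t).card : ℕ) := by
    simp only [fun t => ew_diff w (hX t)]
    rw [sum_comm]
    refine sum_le_sum fun u _ => ?_
    rw [sum_comm]
    refine sum_le_sum fun v _ => ?_
    rw [← mul_sum, sum_boole]
    refine mul_le_mul_of_nonneg_left (Nat.cast_le.2 (le_min (hp u v) ?_)) (hw.nn u v)
    refine le_trans (le_of_eq (congrArg card ?_)) (hp v u)
    ext t
    simp only [mem_filter]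
    tauto
  have h3 : ∑ u, (((range T).filter fun t => u ∈ B t \ X t).card : ℝ) =
      ∑ t ∈ range T, (((B t).card : ℝ) - (X t).card) := by
    simp only [← sum_boole]
    rw [sum_comm]
    refine sum_congr rfl fun t _ => ?_
    rw [sum_boole, filter_mem_eq_inter, univ_inter, card_sdiff_of_subset (hX t),
      Nat.cast_sub (card_le_card (hX t))]
  rw [h3, mul_sum] at h1
  have h4 := h2.trans h1
  rw [← sub_nonneg, ← sum_sub_distrib] at h4 ⊢
  refine le_of_le_of_eq h4 (sum_congr rfl fun t _ => ?_)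
  unfold pot
  ring

/-- The abstract theorem. -/
theorem core (hw : Wt w) (h : Allow M k) (hM : 0 < M) (hc : ∀ i H, Dn (k i) H → ew w H Hᶜ ≤ c)
    (h0 : pot w d univ = 0) (hb : ∀ Y, 0 ≤ pot w d Y) (hj : 0 < j)
    (hn : 8 * j ≤ Fintype.card V) : d * j - j * (j - 1) ≤ c := by
  obtain ⟨b, hb'⟩ : ∃ b, Fintype.card V / (2 * j) = b + 4 :=
    Nat.exists_eq_add_of_le' ((Nat.le_div_iff_mul_le (by omega)).2 (by omega))
  have e1 := Nat.div_add_mod (Fintype.card V) (2 * j)
  have e2 := Nat.mod_lt (Fintype.card V) (show 0 < 2 * j by omega)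
  rw [hb'] at e1
  obtain ⟨β, hβ⟩ : ∃ β, β = j + Fintype.card V % (2 * j) := ⟨_, rfl⟩
  have e3 : 2 * j * (b + 4) = 2 * (b * j) + 8 * j := by ring
  have e4 : (2 * (b + 1) + 5) * j = 2 * (b * j) + 7 * j := by ring
  have e5 : Fintype.card V = β + (2 * (b + 1) + 5) * j := by omega
  have n1 : 2 * β + 4 * j < Fintype.card V := by omega
  have n2 : 3 * β < Fintype.card V := by omega
  set θ := d * j - j * (j - 1) with hθ
  have key : ∀ T : ℕ, T * θ ≤ (T + 1) * (2 * (b + 4) * c - (2 * b + 7) * θ) := by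
    intro T
    obtain ⟨s, s1, s2, s3⟩ := exists_seq h hM n1 n2 hj (by omega) T
    have c1 := cluster hw hb (T + 1) (fun t => car k β j (s t)) (fun t => tok M k β j s t (s t))
      (fun t p hp => (mem_tok.1 hp).1) (pair_count h hM n1 n2 s1 s2 (T + 1))
    have c2 : ∑ t ∈ range (T + 1), pot w d (car k β j (s t)) ≤
        ∑ _t ∈ range (T + 1), (2 * (b + 4) * c - (2 * b + 7) * θ) := sum_le_sum fun t _ => by
      have := carrier hw h hc h0 e5 (lo_dn (k (s t).1) univ _) (lo_dn (k (s t).2) univ _)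
        (card_lo_univ (h.inj _) (by omega)) (card_lo_univ (h.inj _) (by omega)) (s1 t).2.2
      push_cast at this
      unfold car
      linarith
    have c3 : ∑ _t ∈ range T, θ ≤
        ∑ t ∈ range T, pot w d (tok M k β j s (t + 1) (s (t + 1))) := sum_le_sum fun t ht =>
      token hw (s3 (t + 1) (by omega) (by have := mem_range.1 ht; omega))
    have c4 := hb (tok M k β j s 0 (s 0))
    rw [sum_range_succ'] at c1
    rw [sum_const, card_range, nsmul_eq_mul] at c2 c3
    push_cast at c2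
    linarith
  by_contra hlt
  rw [not_le] at hlt
  have hb0 : (0 : ℝ) ≤ b := Nat.cast_nonneg b
  obtain ⟨T, hT⟩ := exists_nat_gt (θ / (θ - c))
  rw [div_lt_iff₀ (by linarith)] at hT
  have hT0 : (0 : ℝ) ≤ T := Nat.cast_nonneg T
  have k1 := key T
  have k2 : 2 * (b + 4) * c - (2 * b + 7) * θ ≤ c := by nlinarith
  have k3 := mul_le_mul_of_nonneg_left k2 (show (0 : ℝ) ≤ T + 1 by linarith)
  nlinarith

end Pool.Agent.P.MP_3c7b76_co.S
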