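import Pool.Agent.P.MP_3c7b76_co.S.Seq

/-! The potential, the cutting rule and the peeling bound. -/

set_option linter.unusedSectionVars false

namespace Pool.Agent.P.MP_3c7b76_co.S

open Finset

variable {V : Type} [Fintype V] [DecidableEq V]

/-- Total weight between two sets. -/
noncomputable def ew (w : V → V → ℝ) (X Y : Finset V) : ℝ := ∑ u ∈ X, ∑ v ∈ Y, w u v

/-- The potential. -/
noncomputable def pot (w : V → V → ℝ) (d : ℝ) (X : Finset V) : ℝ := d * X.card - ew w X X

/-- Symmetric weights in the unit interval with zero diagonal. -/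
structure Wt (w : V → V → ℝ) : Prop where
  nn : ∀ u v, 0 ≤ w u v
  le : ∀ u v, w u v ≤ 1
  symm : ∀ u v, w u v = w v u
  diag : ∀ u, w u u = 0

variable {w : V → V → ℝ} {d c : ℝ} {M : ℕ} {k : ℤ → V → ℝ}

theorem ew_comm (hw : Wt w) (X Y : Finset V) : ew w X Y = ew w Y X := by
  unfold ew
  rw [sum_comm]
  exact sum_congr rfl fun _ _ => sum_congr rfl fun _ _ => hw.symm _ _

theorem ew_left (C H Y : Finset V) : ew w C Y = ew w (C ∩ H) Y + ew w (C \ H) Y := by
  unfold ew
  rw [sum_inter_add_sum_sdiff]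

theorem ew_right (C H Y : Finset V) : ew w Y C = ew w Y (C ∩ H) + ew w Y (C \ H) := by
  unfold ew
  rw [← sum_add_distrib]
  exact sum_congr rfl fun _ _ => (sum_inter_add_sum_sdiff _ _ _).symm

theorem ew_mono (hw : Wt w) {X Y X' Y' : Finset V} (h1 : X ⊆ X') (h2 : Y ⊆ Y') :
    ew w X Y ≤ ew w X' Y' := by
  unfold ew
  refine le_trans (sum_le_sum fun u _ => sum_le_sum_of_subset_of_nonneg h2 fun v _ _ => hw.nn u v)
    (sum_le_sum_of_subset_of_nonneg h1 fun u _ _ => sum_nonneg fun v _ => hw.nn u v)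

theorem pot_split (hw : Wt w) (C H : Finset V) :
    pot w d (C ∩ H) + pot w d (C \ H) = pot w d C + 2 * ew w (C ∩ H) (C \ H) := by
  unfold pot
  have h1 : (C.card : ℝ) = (C ∩ H).card + (C \ H).card := by
    have := card_inter_add_card_sdiff C H
    exact_mod_cast this.symm
  rw [h1, ew_left C H C, ew_right C H (C ∩ H), ew_right C H (C \ H), ew_comm hw (C \ H) (C ∩ H)]
  ring

theorem cut_two (hw : Wt w) {C D : Finset V} (hd : Disjoint C D) (H : Finset V) :
    ew w (C ∩ H) (C \ H) + ew w (D ∩ H) (D \ H) ≤ ew w H Hᶜ := by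
  rw [ew_left H C Hᶜ]
  refine add_le_add (ew_mono hw (by rw [inter_comm]) fun x hx => ?_)
    (ew_mono hw (fun x hx => ?_) fun x hx => ?_)
  · exact mem_compl.2 (mem_sdiff.1 hx).2
  · rw [mem_inter] at hx
    exact mem_sdiff.2 ⟨hx.2, fun h => disjoint_left.1 hd h hx.1⟩
  · exact mem_compl.2 (mem_sdiff.1 hx).2

theorem cut_rule (hw : Wt w) {C D H : Finset V} (hd : Disjoint C D) (hH : ew w H Hᶜ ≤ c) :
    pot w d (C ∩ H) + pot w d (C \ H) + pot w d (D ∩ H) + pot w d (D \ H) ≤
      pot w d C + pot w d D + 2 * c := by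
  have h1 := pot_split (d := d) hw C H
  have h2 := pot_split (d := d) hw D H
  have h3 := cut_two hw hd H
  linarith

theorem token (hw : Wt w) {X : Finset V} {j : ℕ} (h : X.card = j) :
    d * j - j * (j - 1) ≤ pot w d X := by
  unfold pot ew
  have : ∑ u ∈ X, ∑ v ∈ X, w u v ≤ ∑ _u ∈ X, ((j : ℝ) - 1) := by
    refine sum_le_sum fun u hu => ?_
    rw [← add_sum_erase X _ hu, hw.diag, zero_add]
    refine le_trans (sum_le_sum fun v _ => hw.le u v) ?_
    rw [sum_const, card_erase_of_mem hu, h, nsmul_eq_mul, mul_one,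
      Nat.cast_sub (by rw [← h]; exact card_pos.2 ⟨u, hu⟩)]
    simp
  rw [sum_const, h, nsmul_eq_mul] at this
  rw [h]
  linarith

theorem Dn.sep {i : ℤ} {H : Finset V} (h : Dn (k i) H) (C D : Finset V) :
    Sep k (C ∩ H) (D \ H) :=
  ⟨i, fun P hP Q hQ => h P Q (mem_inter.1 hP).2 (mem_sdiff.1 hQ).2⟩

theorem peel (hw : Wt w) (h : Allow M k) (hc : ∀ i H, Dn (k i) H → ew w H Hᶜ ≤ c) {j : ℕ}
    (b : ℕ) : ∀ C D : Finset V, Sep k C D → C.card = 2 * j → D.card = 2 * (b + 1) * j →
      (2 * b + 4) * (d * j - j * (j - 1)) ≤ pot w d C + pot w d D + 2 * (b + 1) * c := by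
  induction b with
  | zero =>
    intro C D hs hC hD
    obtain ⟨i, H, h1, h2, h3⟩ := h.transversal hs (a := j) (b := j) (by omega) (by omega)
    have e1 := card_inter_add_card_sdiff C H
    have e2 := card_inter_add_card_sdiff D H
    have t1 := token (d := d) hw h2
    have t2 := token (d := d) hw h3
    have t3 := token (d := d) hw (X := C \ H) (j := j) (by omega)
    have t4 := token (d := d) hw (X := D \ H) (j := j) (by omega)
    have := cut_rule (d := d) hw hs.disj (hc i H h1)
    push_cast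
    linarith
  | succ b ih =>
    intro C D hs hC hD
    have hD' : D.card = 2 * j + 2 * (b + 1) * j := by rw [hD]; ring
    obtain ⟨i, H, h1, h2, h3⟩ := h.transversal hs (a := j) (b := 2 * j) (by omega) (by omega)
    have e1 := card_inter_add_card_sdiff C H
    have e2 := card_inter_add_card_sdiff D H
    have t1 := token (d := d) hw h2
    have t3 := token (d := d) hw (X := C \ H) (j := j) (by omega)
    have t2 := ih (D ∩ H) (D \ H) (h1.sep D D) h3 (by omega)
    have := cut_rule (d := d) hw hs.disj (hc i H h1)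
    push_cast at t2 ⊢
    linarith

/-- The bound for the carrier of a pair of down sets. -/
theorem carrier (hw : Wt w) (h : Allow M k) (hc : ∀ i H, Dn (k i) H → ew w H Hᶜ ≤ c)
    (h0 : pot w d univ = 0) {j β b : ℕ} (hn : Fintype.card V = β + (2 * b + 5) * j)
    {i i' : ℤ} {A T : Finset V} (hA : Dn (k i) A) (hT : Dn (k i') T) (cA : A.card = β + j)
    (cT : T.card = β + 2 * j) (cB : (A ∩ T).card = β) :
    pot w d (A ∩ T) + (2 * b + 5) * (d * j - j * (j - 1)) ≤ 2 * (b + 3) * c := by
  have s1 := pot_split (d := d) hw univ A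
  rw [univ_inter, h0, ← compl_eq_univ_sdiff] at s1
  have s2 := hc i A hA
  have s3 := cut_rule (d := d) hw (C := A) (D := Aᶜ) disjoint_compl_right (hc i' T hT)
  have e1 := card_inter_add_card_sdiff A T
  have e2 := card_inter_add_card_sdiff Aᶜ T
  have e3 := card_inter_add_card_sdiff T A
  have e4 : T \ A = Aᶜ ∩ T := by ext x; simp only [mem_sdiff, mem_inter, mem_compl]; tauto
  rw [inter_comm, e4] at e3
  have e5 := card_compl A
  have e6 : (2 * b + 5) * j = 2 * (b + 1) * j + 3 * j := by ring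
  have t1 := token (d := d) hw (X := A \ T) (j := j) (by omega)
  have t2 := peel (d := d) (j := j) hw h hc b (Aᶜ ∩ T) (Aᶜ \ T) (hT.sep _ _) (by omega) (by omega)
  linarith

/-- The layer cake bound. -/
theorem layer (hb : ∀ Y, 0 ≤ pot w d Y) (F : V → ℕ) :
    ∑ u, ∑ v, w u v * (min (F u) (F v) : ℕ) ≤ d * ∑ u, (F u : ℝ) := by
  obtain ⟨N, hN⟩ : ∃ N, ∀ u, F u ≤ N := ⟨univ.sup F, fun u => le_sup (mem_univ u)⟩
  have e1 : ∀ a : ℕ, a ≤ N → (a : ℝ) = ∑ l ∈ range N, if l < a then (1 : ℝ) else 0 := by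
    intro a ha
    rw [sum_boole]
    congr 1
    have : (range N).filter (fun l => l < a) = range a := by
      ext l; simp only [mem_filter, mem_range]; omega
    rw [this, card_range]
  have e2 : ∑ u, ∑ v, w u v * (min (F u) (F v) : ℕ) = ∑ l ∈ range N,
      ew w (univ.filter fun u => l < F u) (univ.filter fun u => l < F u) := by
    unfold ew
    simp only [sum_filter]
    rw [sum_comm (s := range N)]
    refine sum_congr rfl fun u _ => ?_
    have : ∀ l, (if l < F u then ∑ a, (if l < F a then w u a else 0) else 0) =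
        ∑ a, w u a * if l < min (F u) (F a) then (1 : ℝ) else 0 := by
      intro l
      split_ifs with hl
      · exact sum_congr rfl fun a _ => by simp [hl]
      · exact (sum_eq_zero fun a _ => by simp [hl]).symm
    simp only [this]
    rw [sum_comm]
    refine sum_congr rfl fun v _ => ?_
    rw [← mul_sum, ← e1 _ ((min_le_left _ _).trans (hN u))]
  have e3 : ∑ u, (F u : ℝ) = ∑ l ∈ range N, ((univ.filter fun u => l < F u).card : ℝ) := by
    simp only [← sum_boole]
    rw [sum_comm]
    exact sum_congr rfl fun u _ => e1 _ (hN u)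
  rw [e2, e3, mul_sum]
  refine sum_le_sum fun l _ => ?_
  have := hb (univ.filter fun u => l < F u)
  unfold pot at this
  linarith

end Pool.Agent.P.MP_3c7b76_co.S
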