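import Pool.Agent.P.MP_3c7b76_co.Chain

/-! Allowable sequences of linear orders, bottom sets and transversals. -/

set_option linter.unusedSectionVars false

namespace Pool.Agent.P.MP_3c7b76_co.S

open Finset

variable {V : Type} [Fintype V] [DecidableEq V]

/-- A periodic sequence of linear orders behaving like the projections of a point set. -/
structure Allow (M : ℕ) (k : ℤ → V → ℝ) : Prop where
  inj : ∀ i, Function.Injective (k i)
  rev : ∀ (i : ℤ) a b, k (i + M) a < k (i + M) b ↔ k i b < k i a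
  conv : ∀ (i j l : ℤ) a b, i ≤ j → j ≤ l → l ≤ i + M → k i a < k i b → k l a < k l b → k j a < k j b
  one : ∀ (i : ℤ) a b b', k i a < k i b → k (i + 1) b < k (i + 1) a → k i a < k i b' →
    k (i + 1) b' < k (i + 1) a → b = b'

/-- Points with fewer than `a` points of `F` below them. -/
noncomputable def lo (k : V → ℝ) (F : Finset V) (a : ℕ) : Finset V :=
  univ.filter fun P => (F.filter fun Q => k Q < k P).card < a

/-- Down sets. -/
def Dn (k : V → ℝ) (H : Finset V) : Prop := ∀ P Q, P ∈ H → Q ∉ H → k P < k Q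

theorem lo_dn (k : V → ℝ) (F : Finset V) (a : ℕ) : Dn k (lo k F a) := by
  intro P Q hP hQ
  by_contra h
  apply hQ
  simp only [lo, mem_filter, mem_univ, true_and] at hP ⊢
  refine lt_of_le_of_lt (card_le_card fun c hc => ?_) hP
  rw [mem_filter] at hc ⊢
  exact ⟨hc.1, hc.2.trans_le (not_lt.1 h)⟩

theorem Dn.mem {k : V → ℝ} {H : Finset V} (h : Dn k H) {P Q : V} (hP : P ∈ H) (hk : k Q < k P) :
    Q ∈ H := by
  by_contra hQ
  exact lt_asymm hk (h P Q hP hQ)

theorem card_lo {k : V → ℝ} (hk : Function.Injective k) (F : Finset V) {a : ℕ}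
    (ha : a ≤ F.card) : (F ∩ lo k F a).card = a := by
  have := rank_count F hk a
  rw [min_eq_left ha] at this
  refine Eq.trans (congrArg card ?_) this
  ext P
  simp [lo]

theorem card_lo_univ {k : V → ℝ} (hk : Function.Injective k) {a : ℕ}
    (ha : a ≤ Fintype.card V) : (lo k univ a).card = a := by
  have := card_lo hk univ (a := a) (by rwa [card_univ])
  rwa [univ_inter] at this

theorem lo_congr {k k' : V → ℝ} (h : ∀ a b, k a < k b ↔ k' a < k' b) (F : Finset V) (a : ℕ) :
    lo k F a = lo k' F a := by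
  unfold lo
  simp only [h]

/-- Two down sets of one order are nested. -/
theorem Dn.sub {k : V → ℝ} {A B : Finset V} (hA : Dn k A) (hB : Dn k B) (h : A.card ≤ B.card) :
    A ⊆ B := by
  intro P hP
  by_contra hPB
  have : B ⊆ A.erase P := fun Q hQ =>
    mem_erase.2 ⟨fun e => hPB (e ▸ hQ), hA.mem hP (hB Q P hQ hPB)⟩
  have h1 := card_le_card this
  rw [card_erase_of_mem hP] at h1
  have := card_pos.2 ⟨P, hP⟩
  omega

variable {M : ℕ} {k : ℤ → V → ℝ}

theorem Allow.per (h : Allow M k) (i : ℤ) (a b : V) :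
    k (i + M + M) a < k (i + M + M) b ↔ k i a < k i b := by
  rw [h.rev, h.rev]

theorem Allow.tri (h : Allow M k) (i : ℤ) {a b : V} (hab : a ≠ b) :
    k i a < k i b ∨ k i b < k i a :=
  lt_or_gt_of_ne fun e => hab (h.inj i e)

theorem sdiff_card_eq {A B : Finset V} (h : A.card = B.card) : (A \ B).card = (B \ A).card := by
  have h1 := card_sdiff_add_card_inter A B
  have h2 := card_sdiff_add_card_inter B A
  rw [inter_comm] at h2
  omega

/-- Down sets of equal size in consecutive orders differ by at most one swap. -/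
theorem Allow.swap (h : Allow M k) {i : ℤ} {A B F : Finset V} (hA : Dn (k i) A)
    (hB : Dn (k (i + 1)) B) (hc : (F ∩ A).card = (F ∩ B).card) :
    ((F ∩ B) \ (F ∩ A)).card ≤ 1 := by
  rcases ((F ∩ A) \ (F ∩ B)).eq_empty_or_nonempty with h0 | ⟨P, hP⟩
  · rw [← sdiff_card_eq hc, h0]; simp
  · simp only [mem_sdiff, mem_inter, not_and] at hP
    refine card_le_one.2 fun Q hQ Q' hQ' => ?_
    simp only [mem_sdiff, mem_inter, not_and] at hQ hQ'
    exact h.one i P Q Q' (hA _ _ hP.1.2 (hQ.2 hQ.1.1)) (hB _ _ hQ.1.2 (hP.2 hP.1.1))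
      (hA _ _ hP.1.2 (hQ'.2 hQ'.1.1)) (hB _ _ hQ'.1.2 (hP.2 hP.1.1))

theorem inter_le {A B : Finset V} (h : (A \ B).card ≤ 1) (C : Finset V) :
    (A ∩ C).card ≤ (B ∩ C).card + 1 := by
  have : A ∩ C ⊆ (B ∩ C) ∪ (A \ B) := by
    intro x hx
    simp only [mem_inter, mem_union, mem_sdiff] at hx ⊢
    tauto
  have h1 := card_le_card this
  have h2 := card_union_le (B ∩ C) (A \ B)
  omega

theorem ivt (g : ℕ → ℕ) (y : ℕ) (h : ∀ n, g n ≤ g (n + 1) + 1) (h0 : y ≤ g 0) (N : ℕ)
    (hN : g N ≤ y) : ∃ n, g n = y := by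
  induction N with
  | zero => exact ⟨0, by omega⟩
  | succ N ih =>
    by_cases h1 : g N ≤ y
    · exact ih h1
    · exact ⟨N + 1, by have := h N; omega⟩

/-- Two sets are separated if one lies below the other in some order. -/
def Sep (k : ℤ → V → ℝ) (C D : Finset V) : Prop := ∃ i, ∀ P ∈ C, ∀ Q ∈ D, k i P < k i Q

theorem Sep.mono {C D C' D' : Finset V} (h : Sep k C D) (hC : C' ⊆ C) (hD : D' ⊆ D) :
    Sep k C' D' := by
  obtain ⟨i, hi⟩ := h
  exact ⟨i, fun P hP Q hQ => hi P (hC hP) Q (hD hQ)⟩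

theorem Sep.disj {C D : Finset V} (h : Sep k C D) : Disjoint C D := by
  obtain ⟨i, hi⟩ := h
  exact disjoint_left.2 fun P hP hQ => lt_irrefl _ (hi P hP P hQ)

/-- Separated sets can be cut in prescribed sizes by one down set. -/
theorem Allow.transversal (h : Allow M k) {C D : Finset V} (hs : Sep k C D) {a b : ℕ}
    (ha : a ≤ C.card) (hb : b ≤ D.card) :
    ∃ i H, Dn (k i) H ∧ (C ∩ H).card = a ∧ (D ∩ H).card = b := by
  have hd := hs.disj
  obtain ⟨i, hi⟩ := hs
  have hF : a + b ≤ (C ∪ D).card := by rw [card_union_of_disjoint hd]; omega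
  have hsum : ∀ j, (C ∩ lo (k j) (C ∪ D) (a + b)).card + (D ∩ lo (k j) (C ∪ D) (a + b)).card =
      a + b := by
    intro j
    rw [← card_union_of_disjoint (hd.mono inter_subset_left inter_subset_left),
      ← union_inter_distrib_right, card_lo (h.inj j) _ hF]
  obtain ⟨n, hn⟩ := ivt (fun n : ℕ => (C ∩ lo (k (i + n)) (C ∪ D) (a + b)).card) a (fun n => by
      have h1 := h.swap (i := i + n) (F := C ∪ D) (lo_dn _ (C ∪ D) (a + b))
        (lo_dn _ (C ∪ D) (a + b)) (by rw [card_lo (h.inj _) _ hF, card_lo (h.inj _) _ hF])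
      rw [← sdiff_card_eq (by rw [card_lo (h.inj _) _ hF, card_lo (h.inj _) _ hF])] at h1
      have h2 := inter_le h1 C
      have e : ∀ X : Finset V, (C ∪ D) ∩ X ∩ C = C ∩ X := fun X => by
        ext x; simp only [mem_inter, mem_union]; tauto
      rw [e, e] at h2
      have e2 : i + ((n + 1 : ℕ) : ℤ) = i + n + 1 := by push_cast; ring
      simpa only [e2] using h2)
    (by
      simp only [Nat.cast_zero, add_zero]
      by_contra hc
      have h1 := hsum i
      obtain ⟨Q, hQ⟩ : (D ∩ lo (k i) (C ∪ D) (a + b)).Nonempty := card_pos.1 (by omega)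
      rw [mem_inter] at hQ
      have : C ∩ lo (k i) (C ∪ D) (a + b) = C :=
        inter_eq_left.2 fun P hP => (lo_dn _ _ _).mem hQ.2 (hi P hP Q hQ.1)
      rw [this] at hc
      omega) M
    (by
      by_contra hc
      have h1 := hsum (i + M)
      obtain ⟨P, hP⟩ : (C ∩ lo (k (i + M)) (C ∪ D) (a + b)).Nonempty := card_pos.1 (by omega)
      rw [mem_inter] at hP
      have : D ∩ lo (k (i + M)) (C ∪ D) (a + b) = D :=
        inter_eq_left.2 fun Q hQ => (lo_dn _ _ _).mem hP.2 ((h.rev _ _ _).2 (hi P hP.1 Q hQ))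
      rw [this] at h1
      omega)
  have := hsum (i + n)
  exact ⟨i + n, _, lo_dn _ _ _, hn, by omega⟩

/-- Monotonicity of intersections under a swap. -/
theorem inter_mono {A B C : Finset V} (hc : A.card = B.card)
    (h : ∀ P Q, P ∈ A → P ∉ B → Q ∈ B → Q ∉ A → Q ∈ C → P ∈ C) :
    (B ∩ C).card ≤ (A ∩ C).card := by
  have e1 := card_sdiff_add_card_inter (B ∩ C) A
  have e2 := card_sdiff_add_card_inter (A ∩ C) B
  have e3 : B ∩ C ∩ A = A ∩ C ∩ B := by ext x; simp only [mem_inter]; tauto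
  rw [e3] at e1
  rcases ((B ∩ C) \ A).eq_empty_or_nonempty with h0 | ⟨Q, hQ⟩
  · rw [h0, card_empty] at e1; omega
  · simp only [mem_sdiff, mem_inter] at hQ
    have h1 : A \ B ⊆ (A ∩ C) \ B := fun P hP => by
      simp only [mem_sdiff, mem_inter] at hP ⊢
      exact ⟨⟨hP.1, h P Q hP.1 hP.2 hQ.1.1 hQ.2 hQ.1.2⟩, hP.2⟩
    have h2 : (B ∩ C) \ A ⊆ B \ A := sdiff_subset_sdiff inter_subset_left Subset.rfl
    have h3 := card_le_card h1
    have h4 := card_le_card h2
    have h5 := sdiff_card_eq hc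
    omega

end Pool.Agent.P.MP_3c7b76_co.S
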